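import Pool.Agent.Y811.PC.Fin5
import Pool.Agent.TH363.CD.Uniq

set_option autoImplicit false

/-! # The boundary of the Multibrot set near the parabolic parameters -/

namespace Pool.Agent.Y811.BD

open Complex Metric Set Filter Topology MeasureTheory Pool.Agent.H712R2 Pool.Agent.H713R2 N62a1eb23
open Pool.Agent.Y811.PC

/-- attracting cycles persist -/
theorem hyp_open {d : ℕ} {c₀ : ℂ} (h : HypP d c₀) : ∀ᶠ c in 𝓝 c₀, HypP d c := by
  obtain ⟨N, z₀, hN, hfix, hlt⟩ := h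
  obtain ⟨hG, hM⟩ := hANA d N c₀ z₀
  have hder : deriv (fun y => (fun p : ℂ × ℂ => G d N p.1 p.2 - p.2) (c₀, y)) z₀ ≠ 0 := by
    have h1 : HasDerivAt (fun y => G d N c₀ y - y) (mu d N c₀ z₀ - 1) z₀ :=
      ((G_differentiable d N c₀) z₀).hasDerivAt.sub (hasDerivAt_id z₀)
    have h2 : deriv (fun y => (fun p : ℂ × ℂ => G d N p.1 p.2 - p.2) (c₀, y)) z₀ =
      mu d N c₀ z₀ - 1 := h1.deriv
    rw [h2]
    intro h3
    rw [sub_eq_zero.1 h3, norm_one] at hlt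
    exact lt_irrefl _ hlt
  obtain ⟨δ, η, y, hδ, hη, hdiff, hy0, hF, -⟩ := hIFT (fun p : ℂ × ℂ => G d N p.1 p.2 - p.2)
    c₀ z₀ (hG.sub analyticAt_snd) (by simp only [hfix, sub_self]) hder
  have hy : ContinuousAt y c₀ := (hdiff.differentiableAt (ball_mem_nhds c₀ hδ)).continuousAt
  have hc : ContinuousAt (fun c => mu d N c (y c)) c₀ := by
    have h1 : ContinuousAt (fun p : ℂ × ℂ => mu d N p.1 p.2) (c₀, y c₀) := by
      rw [hy0]
      exact hM.continuousAt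
    exact ContinuousAt.comp (f := fun c => (c, y c)) h1 (continuousAt_id.prodMk hy)
  have hlt' : ‖mu d N c₀ (y c₀)‖ < 1 := by rw [hy0]; exact hlt
  filter_upwards [ball_mem_nhds c₀ hδ, hc.norm.eventually_lt continuousAt_const hlt'] with c h1 h2
  exact ⟨N, y c, hN, sub_eq_zero.1 (hF c h1), h2⟩

/-- on the boundary of the Multibrot set no cycle is attracting -/
theorem frontier_sub {d : ℕ} (hd : 2 ≤ d) :
    frontier (multibrotSet d) ⊆ {c | ¬ HypP d c} := by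
  intro c hc hh
  have h1 : ∀ᶠ x in 𝓝 c, x ∈ multibrotSet d := by
    filter_upwards [hyp_open hh] with x hx
    obtain ⟨N, z, hN, hfix, hlt⟩ := hx
    exact Pool.Agent.TH363.CD.mem_multibrot (z := z) (m := N) hd
      ⟨hN, hfix, (G_differentiable d N x) z, hlt⟩
  exact hc.2 (mem_interior_iff_mem_nhds.2 h1)

/-- near a parabolic parameter the parameters without attracting cycle are close to a line -/
theorem nonhyp_tangent {d m q : ℕ} {c₀ z₀ : ℂ} (h : PD d m q c₀ z₀) {e : ℝ}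
    (he : e = if mu d m c₀ z₀ = 1 then 3 / 2 else 2) :
    ∃ (κ : ℂ) (K ε : ℝ), κ ≠ 0 ∧ 0 < K ∧ 0 < ε ∧ ∀ c ∈ ball c₀ ε, ¬ HypP d c →
      |(κ * (c - c₀)).re| ≤ K * ‖c - c₀‖ ^ e := by
  obtain ⟨ε₀, hε⟩ := rates h
  obtain ⟨⟨a, ha⟩, -, hmem, -⟩ := hFATOU d m q c₀ z₀ h
  by_cases hmu : mu d m c₀ z₀ = 1
  · rw [if_pos hmu] at he
    subst he
    have hq1 : q = 1 := by
      have h2 := h.mul
      rw [hmu] at h2
      exact h2.unique IsPrimitiveRoot.one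
    subst hq1
    have h2 : deriv (fun c => G d m c z₀) c₀ ≠ 0 := hTRANS1 d m c₀ z₀ h
    obtain ⟨h3, h4⟩ := hPRIM d m c₀ z₀ ε₀ a h hε ha h2
    exact hUPRIM d m c₀ z₀ h h2 h3
  · rw [if_neg hmu] at he
    subst he
    obtain ⟨al, κ, h1, h2, h3, h4, h5, h6⟩ := hSAT d m q c₀ z₀ ε₀ h hε hmu
    obtain ⟨κ', K, ε, hκ, hK, hε', hS⟩ := hTHIN d m q c₀ z₀ h al κ h1 h2 h3 h4 h5
    have hfin : {c : ℂ | ∃ z, G d (m * q) c z = z ∧ mu d (m * q) c z = 1}.Finite :=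
      hFIN d (m * q) h.hd (Nat.mul_pos h.hm h.hq) 1 (by simp)
    have hcl : ∀ᶠ c in 𝓝 c₀, c ∉ {c : ℂ | ∃ z, G d (m * q) c z = z ∧ mu d (m * q) c z = 1} \ {c₀} := by
      have h7 : IsClosed ({c : ℂ | ∃ z, G d (m * q) c z = z ∧ mu d (m * q) c z = 1} \ {c₀}) :=
        (hfin.subset diff_subset).isClosed
      exact h7.isOpen_compl.mem_nhds (fun h8 => h8.2 rfl)
    obtain ⟨δ, hδ, hball⟩ := Metric.eventually_nhds_iff_ball.1 hcl
    refine ⟨κ', K, min ε δ, hκ, hK, lt_min hε' hδ, fun c hc hcS => ?_⟩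
    by_cases hcc : c = c₀
    · subst hcc
      simp only [sub_self, mul_zero, Complex.zero_re, abs_zero, norm_zero]
      positivity
    · exact hS c (ball_subset_ball (min_le_left _ _) hc) (fun z hz h8 =>
        hball c (ball_subset_ball (min_le_right _ _) hc) ⟨⟨z, hz, h8⟩, hcc⟩) hcS

/-- the boundary near a parabolic parameter -/
theorem bdy_dens {d m q : ℕ} {c₀ z₀ : ℂ} (h : PD d m q c₀ z₀) {e : ℝ}
    (he : e = if mu d m c₀ z₀ = 1 then 3 / 2 else 2) :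
    ∃ (κ : ℂ) (C r₀ : ℝ), κ ≠ 0 ∧ 0 < C ∧ 0 < r₀ ∧
      (∀ c ∈ frontier (multibrotSet d), ‖c - c₀‖ < r₀ → |(κ * (c - c₀)).re| ≤ C * ‖c - c₀‖ ^ e) ∧
      ∀ r : ℝ, 0 < r → r < r₀ →
        volume (ball c₀ r ∩ frontier (multibrotSet d)) ≤ ENNReal.ofReal (C * r ^ (1 + e)) := by
  obtain ⟨C, r₀, hC, hr₀, hb⟩ := dens_final h he
  obtain ⟨κ, K, ε, hκ, hK, hε, ht⟩ := nonhyp_tangent h he
  refine ⟨κ, max C K, min r₀ ε, hκ, lt_max_of_lt_left hC, lt_min hr₀ hε, ?_, ?_⟩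
  · intro c hc hcr
    have h1 := ht c (by rw [mem_ball, dist_eq_norm]; exact hcr.trans_le (min_le_right _ _))
      (frontier_sub h.hd hc)
    exact h1.trans (mul_le_mul_of_nonneg_right (le_max_right _ _)
      (Real.rpow_nonneg (norm_nonneg _) _))
  · intro r hr hrr
    have h1 := (hb r hr (hrr.trans_le (min_le_left _ _))).1
    refine ((measure_mono (inter_subset_inter_right _ (frontier_sub h.hd))).trans h1).trans
      (ENNReal.ofReal_le_ofReal (mul_le_mul_of_nonneg_right (le_max_left _ _)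
        (Real.rpow_nonneg hr.le _)))

end Pool.Agent.Y811.BD
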